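import Pool.Agent.Q289.Chaos.Main

/-!
# Site disorder chaos fails for short-range models on 3-uniform hypergraphs

The definitions are in `Q289.Chaos.Defs`. The hypergraphs are chains of blocks with five vertices
`v, a, b, c, z` and hyperedges `{v, a, b}`, `{v, b, c}`, `{v, a, c}`, consecutive blocks being
joined by a hyperedge `{a, z, a'}`. The product of the three hyperedges of a block is the spin at
`v`, and the three are independent free spins under the Gibbs measure.
-/

set_option autoImplicit false

open MeasureTheory Filter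
open scoped ENNReal

namespace Pool.Agent.Results.MP_f93cde_pr.NoSiteChaos

open Q289.Chaos

/-- there is a sequence of 3-uniform hypergraphs with polynomial growth such that for every odd
measurable `ρ` that is nonnegative on `(0, ∞)` and not almost everywhere zero, for each of the two
perturbations, every `t ≥ 0` and every `β ∈ (0, ∞]`, the expected squared overlap is bounded below
by a positive constant for all `N ≥ 5` -/
theorem result : ∃ G : ∀ N : ℕ, Finset (Finset (Fin N)),
    (∀ N, ∀ e ∈ G N, e.card = 3) ∧ PolynomialGrowth G ∧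
    ∀ ρ : ℝ → ℝ, Measurable ρ → (∀ x, ρ (-x) = -ρ x) → (∀ x, 0 < x → 0 ≤ ρ x) →
      ¬ ρ =ᵐ[volume] 0 → ∀ (κ : Kind) (t : ℝ) (β : ℝ≥0∞), 0 ≤ t → β ≠ 0 →
        ∃ δ : ℝ, 0 < δ ∧ ∀ N : ℕ, 5 ≤ N → δ ≤ meanSq (G N) ρ κ t β := by
  refine ⟨G, G_card, growth, fun ρ hm ho hn h0 κ t β ht hβ => ?_⟩
  have h := good_of hm ho hn h0 hβ
  have hk := kap_pos h κ t ht
  exact ⟨_, by positivity, fun N hN => main hm κ t ht h hN⟩

end Pool.Agent.Results.MP_f93cde_pr.NoSiteChaos
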